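import Pool.Agent.H26.AP.Fin
import Pool.Agent.H26.AP.Sm

/-!
m^3+L with an odd (even) number, at most R, of prime factors.
-/

namespace Pool.Agent.Results.MP_4d57ea_nt.ParityAlmostPrimes

/-- number of prime factors of |x|, counted with multiplicity -/
def Omega (x : ℤ) : ℕ := ArithmeticFunction.cardFactors x.natAbs

/-- k and L are in the same cube class: L/k is the cube of a rational number different from 0 -/
def SameClass (k L : ℤ) : Prop := ∃ a b : ℤ, a ≠ 0 ∧ b ≠ 0 ∧ a ^ 3 * k = b ^ 3 * L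

/-- for some c > 0 and E, at least c X^(1/6) / (log X)^E of the integers |m| ≤ X satisfy P, for all large X -/
def Many (P : ℤ → Prop) : Prop := ∃ c : ℝ, 0 < c ∧ ∃ E X0 : ℕ, ∀ X : ℕ, X0 ≤ X →
  c * (X : ℝ) ^ ((1 : ℝ) / 6) / Real.log X ^ E ≤ ({m : ℤ | |m| ≤ X ∧ P m}.ncard : ℝ)

/-- m^3+L has an even number, at most R, of prime factors for many m, and an odd number, at most R, for many m -/
def BothParities (L : ℤ) : Prop := ∃ R : ℕ,
  Many (fun m => m ^ 3 + L ≠ 0 ∧ Even (Omega (m ^ 3 + L)) ∧ Omega (m ^ 3 + L) ≤ R) ∧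
  Many (fun m => Odd (Omega (m ^ 3 + L)) ∧ Omega (m ^ 3 + L) ≤ R)

/-- (1) For every k which is not a cube there are L in the cube class of k and R such that m^3+L has an odd number,
at most R, of prime factors for infinitely many natural m. (2) For all k, N /= 0, L = k (k (k+1) (2k+1) N)^3 there is R
such that Omega(m^3+L) ≤ R and Omega(m^3+L) = Omega(N) mod 2 for many m. (3) For every k /= 0 there is n /= 0 such
that both parities occur for all L = k (en)^3, e /= 0, or such that both occur for all L = k^2 (en)^3, e /= 0, the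
latter only if the parity of Omega(k q^3 + 2^i p^3), i = 0, 1, 2, 3, never depends on i; so the former for
1 < k ≤ 100. (4) Both parities occur for L = 2 (12 N)^3; for L = 16 the odd one. -/
theorem result :
    (∀ k : ℤ, (∀ a : ℤ, k ≠ a ^ 3) → ∃ L : ℤ, SameClass k L ∧ ∃ R : ℕ,
      {m : ℕ | Odd (Omega ((m : ℤ) ^ 3 + L)) ∧ Omega ((m : ℤ) ^ 3 + L) ≤ R}.Infinite) ∧
    (∀ k N L : ℤ, k ≠ 0 → N ≠ 0 → L = k * (k * (k + 1) * (2 * k + 1) * N) ^ 3 → ∃ R : ℕ,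
      Many (fun m => m ^ 3 + L ≠ 0 ∧ Omega (m ^ 3 + L) ≤ R ∧ Omega (m ^ 3 + L) ≡ Omega N [MOD 2])) ∧
    (∀ k : ℤ, k ≠ 0 →
      (∃ n : ℤ, n ≠ 0 ∧ ∀ e : ℤ, e ≠ 0 → BothParities (k * (e * n) ^ 3)) ∨
      (∃ n : ℤ, n ≠ 0 ∧ ∀ e : ℤ, e ≠ 0 → BothParities (k ^ 2 * (e * n) ^ 3)) ∧
        ∀ p q : ℤ, p ≠ 0 → q ≠ 0 → (∀ i : ℕ, i ≤ 3 → k * q ^ 3 + 2 ^ i * p ^ 3 ≠ 0) →
          ∀ i : ℕ, i ≤ 2 →
            Omega (k * q ^ 3 + 2 ^ i * p ^ 3) ≡ Omega (k * q ^ 3 + 2 ^ (i + 1) * p ^ 3) [MOD 2]) ∧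
    (∀ k : ℤ, 1 < k → k ≤ 100 → (∀ a : ℤ, k ≠ a ^ 3) →
      ∃ n : ℤ, n ≠ 0 ∧ ∀ e : ℤ, e ≠ 0 → BothParities (k * (e * n) ^ 3)) ∧
    (∀ N : ℤ, N ≠ 0 → BothParities (2 * (12 * N) ^ 3)) ∧
    (∃ R : ℕ, Many (fun m => Odd (Omega (m ^ 3 + 16)) ∧ Omega (m ^ 3 + 16) ≤ R)) := by
  have hM : ∀ (A : Set ℤ) (P : ℤ → Prop), (∀ m ∈ A, P m) → Pool.Agent.H26.AP.Many A → Many P := by
    intro A P hAP hA
    obtain ⟨E, c, hc, X0, h⟩ := hA.mono (B := {m : ℤ | P m}) hAP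
    refine ⟨c, hc, E, X0, fun X hX => ?_⟩
    have h1 := h X hX
    rw [← mul_div_assoc] at h1
    exact h1
  have hB : ∀ K : ℤ, Pool.Agent.H26.AP.Both K → BothParities K := by
    intro K hK
    obtain ⟨R1, h1⟩ := hK 1 (Or.inl rfl)
    obtain ⟨R2, h2⟩ := hK (-1) (Or.inr rfl)
    refine ⟨max R1 R2, hM _ _ ?_ h1, hM _ _ ?_ h2⟩
    · rintro m ⟨a1, a2, a3⟩
      exact ⟨a1, Pool.Agent.H26.AP.even_of_lam a2, a3.trans (le_max_left _ _)⟩
    · rintro m ⟨_, a2, a3⟩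
      exact ⟨Pool.Agent.H26.AP.odd_of_lam a2, a3.trans (le_max_right _ _)⟩
  have hG : ∀ k : ℤ, Pool.Agent.H26.AP.Good k →
      ∃ n : ℤ, n ≠ 0 ∧ ∀ e : ℤ, e ≠ 0 → BothParities (k * (e * n) ^ 3) := by
    rintro k ⟨n, hn, h⟩
    exact ⟨n, hn, fun e he => hB _ (h _ (mul_ne_zero he hn) (Dvd.intro_left _ rfl))⟩
  have hP : ∀ x y : ℤ, Pool.Agent.H12.PAR.lam x = Pool.Agent.H12.PAR.lam y → Omega x ≡ Omega y [MOD 2] := by
    intro x y h
    rcases Pool.Agent.H12.PAR.lam_cases y with h' | h'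
    · have b1 := Nat.even_iff.1 (Pool.Agent.H26.AP.even_of_lam (h.trans h'))
      have b2 := Nat.even_iff.1 (Pool.Agent.H26.AP.even_of_lam h')
      exact b1.trans b2.symm
    · have b1 := Nat.odd_iff.1 (Pool.Agent.H26.AP.odd_of_lam (h.trans h'))
      have b2 := Nat.odd_iff.1 (Pool.Agent.H26.AP.odd_of_lam h')
      exact b1.trans b2.symm
  refine ⟨?_, ?_, ?_, fun k h1 h2 hc => hG k (Pool.Agent.H26.AP.good_small (by omega) h2 hc),
    fun N hN => hB _ (Pool.Agent.H26.AP.both2 hN), ?_⟩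
  · intro k hk
    have h0 : k ≠ 0 := by
      rintro rfl
      exact hk 0 (by norm_num)
    have h1 : k + 1 ≠ 0 := by
      intro h
      exact hk (-1) (by linarith)
    have h2 : 2 * k + 1 ≠ 0 := by omega
    obtain ⟨n, hn⟩ : ∃ n : ℤ, n = k * (k + 1) * (2 * k + 1) * 2 := ⟨_, rfl⟩
    have hn0 : n ≠ 0 := by
      rw [hn]
      exact mul_ne_zero (mul_ne_zero (mul_ne_zero h0 h1) h2) two_ne_zero
    have h3 := Pool.Agent.H26.AP.one_parity h0 (two_ne_zero : (2 : ℤ) ≠ 0)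
    rw [← hn, Pool.Agent.H26.AP.lam_two'] at h3
    obtain ⟨R, h4 | h4⟩ := Pool.Agent.H26.AP.pos_of_src h3
    · refine ⟨k * n ^ 3, ⟨n, 1, hn0, one_ne_zero, by ring⟩, R, h4.mono ?_⟩
      rintro m ⟨_, a2, a3⟩
      exact ⟨Pool.Agent.H26.AP.odd_of_lam a2, a3⟩
    · refine ⟨-(k * n ^ 3), ⟨n, -1, hn0, by norm_num, by ring⟩, R, h4.mono ?_⟩
      rintro m ⟨_, a2, a3⟩
      exact ⟨Pool.Agent.H26.AP.odd_of_lam a2, a3⟩
  · rintro k N L hk hN rfl
    obtain ⟨R, h⟩ := Pool.Agent.H26.AP.one_parity hk hN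
    refine ⟨R, hM _ _ ?_ h⟩
    rintro m ⟨a1, a2, a3⟩
    exact ⟨a1, a3, hP _ _ a2⟩
  · intro k hk
    rcases Pool.Agent.H26.AP.good_or_ex hk with h | h
    · exact Or.inl (hG k h)
    · refine Or.inr ⟨hG _ (Pool.Agent.H26.AP.good_sq hk h), fun p q hp hq hne i hi => ?_⟩
      have n1 := hne 0 (by norm_num)
      have n2 := hne 1 (by norm_num)
      have n4 := hne 2 (by norm_num)
      have n8 := hne 3 (by norm_num)
      norm_num at n1 n2 n4 n8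
      obtain ⟨r1, r2, r4⟩ := Pool.Agent.H26.AP.ex_eq h hp hq n1 n2 n4 n8
      interval_cases i
      · norm_num
        exact hP _ _ r1
      · norm_num
        exact hP _ _ r2
      · norm_num
        exact hP _ _ r4
  · obtain ⟨R, h⟩ := Pool.Agent.H26.AP.sixteen
    refine ⟨R, hM _ _ ?_ h⟩
    rintro m ⟨_, a2, a3⟩
    exact ⟨Pool.Agent.H26.AP.odd_of_lam a2, a3⟩

end Pool.Agent.Results.MP_4d57ea_nt.ParityAlmostPrimes
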