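import Pool.Agent.H43.PG.Fm1
import Pool.Agent.H43.PG.Fr1
import Pool.Agent.H43.PG.Si1
import Pool.Agent.H43.PG.Sx1
import Pool.Agent.H43.PG.Ap1
import Pool.Agent.H43.PG.Pc1
import Pool.Agent.H43.PG.Ad1
import Pool.Agent.H43.PG.Th1
import Pool.Agent.H43.PG.Tu1
import Pool.Agent.H43.PG.Bl1
import Pool.Agent.H43.PG.Fa1
import Pool.Agent.H43.PG.Sm1
import Pool.Agent.H43.PG.Al2
import Pool.Agent.H43.PG.Ms2
import Pool.Agent.H43.PG.Fi2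
import Pool.Agent.H96.EB.Lc2
import Pool.Agent.H43.HY.Fz

/-!
For all `k <= X` with at most `X (log X)^(-B)` exceptions, `m^3+k` is a product of exactly two primes `p1 p2`,
`P1 < p1 <= P2`, for the expected number of `m <= M`, with relative error `(log X)^(-B)`; here `M` may be as large as
`X^(7/13-ε)`, beyond the square root of `X`.
-/

namespace Pool.Agent.Results.MP_4d57ea_nt.TwoPrimesLong

open Finset

/-- number of residues `m` modulo `p` with `p ∣ m^3+k` -/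
def nu (p k : ℕ) : ℕ := ((range p).filter fun m => p ∣ m ^ 3 + k).card

/-- the product of Hardy and Littlewood for `m^3+k` over the primes up to `y` -/
noncomputable def S (y k : ℕ) : ℝ :=
  ∏ p ∈ (Icc 1 y).filter Nat.Prime, (1 - (nu p k : ℝ) / p) / (1 - 1 / (p : ℝ))

/-- `n = p1 p2` with primes `p1`, `p2` and `P1 < p1 ≤ P2` -/
def TwoPrimes (P1 P2 n : ℕ) : Prop :=
  ∃ p1 p2 : ℕ, p1.Prime ∧ p2.Prime ∧ P1 < p1 ∧ p1 ≤ P2 ∧ n = p1 * p2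

open Classical in
/-- number of `1 ≤ m ≤ M` such that `m^3+k` is of the form `TwoPrimes` -/
noncomputable def count (P1 P2 M k : ℕ) : ℕ :=
  ((Icc 1 M).filter (fun m => TwoPrimes P1 P2 (m ^ 3 + k))).card

/-- the sum of `1 / (p log (n/p))` over the primes `P1 < p ≤ P2` -/
noncomputable def dens (P1 P2 n : ℕ) : ℝ :=
  ∑ p ∈ (Ioc P1 P2).filter Nat.Prime, 1 / ((p : ℝ) * Real.log ((n : ℝ) / p))

/-- the expected number: `S y k` times the sum of the densities at `m^3+k` -/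
noncomputable def expected (y P1 P2 M k : ℕ) : ℝ := S y k * ∑ m ∈ Icc 1 M, dens P1 P2 (m ^ 3 + k)

theorem result (ε B : ℝ) (hε : 0 < ε) (hB : 0 < B) : ∃ A C0 : ℝ, 0 < A ∧ 0 < C0 ∧
    ∀ C : ℝ, C0 ≤ C → ∃ X0 : ℕ, ∀ X : ℕ, X0 ≤ X → ∀ M P1 P2 : ℕ,
    (Real.log X) ^ C ≤ M → (Real.log X) ^ A ≤ P1 → 2 * P1 ≤ P2 →
    (M : ℝ) ^ 2 * (Real.log X) ^ A ≤ X * P1 → (P2 : ℝ) ^ 5 * (M : ℝ) ^ ε ≤ M →
    (P2 : ℝ) ^ 5 * (M : ℝ) ^ (3 + ε) ≤ (X : ℝ) ^ 2 →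
    ((((Icc 1 X).filter (fun k => (Real.log X) ^ (-B) * expected ⌊(Real.log X) ^ C⌋₊ P1 P2 M k <
      |(count P1 P2 M k : ℝ) - expected ⌊(Real.log X) ^ C⌋₊ P1 P2 M k|)).card : ℕ) : ℝ) ≤
      X * (Real.log X) ^ (-B) :=
  H43.PG.fi2 (H43.PG.ms2 (H43.PG.al2 (H43.PG.sm1 (H43.PG.fa1 (H43.PG.bl1 (H43.PG.tu1 (H43.PG.th1
    (H43.PG.ad1 (H43.PG.pc1 (H43.PG.ap1 (H43.PG.sx1 (H43.PG.si1 (H43.PG.fr1 H43.PG.fm1)))))))))))
    (fun A ε hA hε => H96.EB.lc2 H43.HY.fzs A ε hA hε))) ε B hε hB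

end Pool.Agent.Results.MP_4d57ea_nt.TwoPrimesLong
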